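import Mathlib
import Pool.Agent.Lib.MP_b92007_lc.Encode
import Pool.Agent.Lib.MP_b92007_lc.EncodeEq
import Pool.Agent.Lib.MP_b92007_lc.Main
import Pool.Agent.Lib.MP_b92007_lc.PolySlots
import Pool.Agent.Lib.PolyTime.Bridge

/-!
Flat foldability of plane graphs with prescribed edge lengths, free mountain-valley angles and
without flat angles is decidable in polynomial time.
-/

namespace Pool.Agent.Results.MP_b92007_lc.FlatFoldInP

open Pool.Agent.FlatFold Pool.Agent.Lib.PolyTime

/-- The decision problem whether a plane graph with edge lengths (written in binary) has a flat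
folded state in which no angle is flat, the choice of valleys and mountains being free, is solved
by a Turing machine in polynomial time. -/
theorem result : ∃ f : PlaneGraph → Bool, (∀ G, f G = true ↔ G.FlatFoldable) ∧
    Nonempty (Turing.TM2ComputableInPolyTime PlaneGraph.encode Computability.encodeBool f) :=
  ⟨fun G => algo G.data, fun G => algo_iff G,
    tm2_core (InOK.word Bool PlaneGraph.encode (α' := InstB) (fun G => G.data) encode_eq)
      (PT.polyF_algo (I := fun I : InstB => I) PolyF.id) (OutOK.bool Bool) (fun _ => rfl)⟩

end Pool.Agent.Results.MP_b92007_lc.FlatFoldInP
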